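import Mathlib
import Pool.Agent.W966.Vf.Stms

set_option autoImplicit false

namespace Pool.Agent.W362.VF

open MvPolynomial Pool.Agent.W966.Vf

instance orig_prime (ρ S : Type) [CommRing S] [IsDomain S] : (orig ρ S).IsPrime := by
  unfold orig
  exact RingHom.ker_isPrime _

theorem orig_eq_span (ρ S : Type) [CommRing S] :
    orig ρ S = Ideal.span (Set.range (X : ρ → MvPolynomial ρ S)) := by
  apply le_antisymm
  · intro p hp
    rw [← Set.image_univ, mem_ideal_span_X_image]
    intro m hm
    by_contra hcon
    have hm0 : m = 0 := by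
      ext i
      by_contra hi
      exact hcon ⟨i, Set.mem_univ i, hi⟩
    rw [hm0, mem_support_iff] at hm
    apply hm
    unfold orig at hp
    rw [RingHom.mem_ker, eval_zero'] at hp
    exact hp
  · rw [Ideal.span_le]
    rintro _ ⟨i, rfl⟩
    change X i ∈ orig ρ S
    unfold orig
    rw [RingHom.mem_ker, eval_X]

theorem orig_height_le (ρ Ω : Type) [Field Ω] [Fintype ρ] :
    (orig ρ Ω).height ≤ (Fintype.card ρ : ℕ∞) := by
  have hne : orig ρ Ω ≠ ⊤ := (orig_prime ρ Ω).ne_top
  have hmin : orig ρ Ω ∈ (Ideal.span (Set.range (X : ρ → MvPolynomial ρ Ω))).minimalPrimes := by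
    rw [← orig_eq_span]
    rw [Ideal.minimalPrimes_eq_subsingleton_self]
    exact Set.mem_singleton _
  have h := Ideal.height_le_card_of_mem_minimalPrimes_span (Set.finite_range _) hmin
  refine h.trans ?_
  have h2 : (Set.range (X : ρ → MvPolynomial ρ Ω)).ncard ≤ Fintype.card ρ := by
    rw [← Set.image_univ]
    refine (Set.ncard_image_le Set.finite_univ).trans ?_
    rw [Set.ncard_univ, Nat.card_eq_fintype_card]
  exact_mod_cast h2

theorem av (hHT : S_HT1) : S_AV := by
  classical
  intro k Ω ρ J _ _ _ _ _ _ E hE
  obtain ⟨hE1, hE2⟩ := hE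
  have hh : (Fintype.card ρ : ℕ∞) ≤ (orig ρ Ω).height := hHT ρ Ω
  -- the linear combination
  set L : (J → k) → MvPolynomial ρ Ω := fun c => ∑ j, C (algebraMap k Ω (c j)) * E j with hL
  have hLadd : ∀ c d, L (c + d) = L c + L d := by
    intro c d
    simp only [hL, Pi.add_apply, map_add, add_mul, Finset.sum_add_distrib]
  have hLsmul : ∀ (r : k) c, L (r • c) = C (algebraMap k Ω r) * L c := by
    intro r c
    simp only [hL, Pi.smul_apply, smul_eq_mul, map_mul, Finset.mul_sum, mul_assoc]
  have hLsingle : ∀ j, L (Pi.single j 1) = E j := by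
    intro j
    simp only [hL]
    rw [Finset.sum_eq_single j]
    · rw [Pi.single_eq_same, map_one, map_one, one_mul]
    · intro i _ hij
      rw [Pi.single_eq_of_ne hij, map_zero, map_zero, zero_mul]
    · intro h
      exact absurd (Finset.mem_univ j) h
  have hLorig : ∀ c, L c ∈ orig ρ Ω := fun c =>
    Ideal.sum_mem _ fun j _ => Ideal.mul_mem_left _ _ (hE1 j)
  have key : ∀ a : ℕ, a ≤ Fintype.card ρ → ∃ c : Fin a → J → k,
      ∀ q : Ideal (MvPolynomial ρ Ω), q.IsPrime → q ≤ orig ρ Ω → (∀ i, L (c i) ∈ q) →
        (a : ℕ∞) ≤ q.height := by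
    intro a
    induction a with
    | zero =>
      intro _
      refine ⟨fun i => i.elim0, ?_⟩
      intro q _ _ _
      simp
    | succ a ih =>
      intro ha
      obtain ⟨c, hc⟩ := ih (by omega)
      set I : Ideal (MvPolynomial ρ Ω) := Ideal.span (Set.range fun i => L (c i)) with hI
      have hfin : (I.minimalPrimes).Finite := Ideal.finite_minimalPrimes_of_isNoetherianRing _ I
      -- subspaces to avoid
      let V : Ideal (MvPolynomial ρ Ω) → Submodule k (J → k) := fun q =>
        { carrier := {d | L d ∈ q}
          add_mem' := by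
            intro x y hx hy
            change L (x + y) ∈ q
            rw [hLadd]
            exact q.add_mem hx hy
          zero_mem' := by
            change L 0 ∈ q
            have : L 0 = 0 := by
              have := hLsmul 0 0
              rw [zero_smul, map_zero, map_zero, zero_mul] at this
              exact this
            rw [this]
            exact q.zero_mem
          smul_mem' := by
            intro r x hx
            change L (r • x) ∈ q
            rw [hLsmul]
            exact q.mul_mem_left _ hx }
      let s : Finset (Submodule k (J → k)) :=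
        ((hfin.toFinset).filter (fun q => q ≤ orig ρ Ω ∧ q ≠ orig ρ Ω)).image V
      have hs : ⊤ ∉ s := by
        intro hmem
        rw [Finset.mem_image] at hmem
        obtain ⟨q, hq, hqV⟩ := hmem
        rw [Finset.mem_filter, Set.Finite.mem_toFinset] at hq
        obtain ⟨hq1, hq2, hq3⟩ := hq
        have hqp : q.IsPrime := hq1.1.1
        apply hq3
        apply hE2 q hqp hq2
        intro j
        have : (Pi.single j 1 : J → k) ∈ V q := by
          rw [hqV]
          exact Submodule.mem_top
        have h2 : L (Pi.single j 1) ∈ q := this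
        rwa [hLsingle] at h2
      have hcov := Subspace.biUnion_ne_univ_of_top_notMem hs
      rw [Set.ne_univ_iff_exists_notMem] at hcov
      obtain ⟨d, hd⟩ := hcov
      have hd' : ∀ q ∈ I.minimalPrimes, q ≤ orig ρ Ω → q ≠ orig ρ Ω → L d ∉ q := by
        intro q hq1 hq2 hq3 hmem
        apply hd
        rw [Set.mem_iUnion₂]
        refine ⟨V q, ?_, hmem⟩
        rw [Finset.mem_image]
        refine ⟨q, ?_, rfl⟩
        rw [Finset.mem_filter, Set.Finite.mem_toFinset]
        exact ⟨hq1, hq2, hq3⟩
      refine ⟨Fin.snoc c d, ?_⟩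
      intro q' hq'p hq'le hq'
      have hIq' : I ≤ q' := by
        rw [hI, Ideal.span_le]
        rintro _ ⟨i, rfl⟩
        have := hq' (Fin.castSucc i)
        rw [Fin.snoc_castSucc] at this
        exact this
      have hdq' : L d ∈ q' := by
        have := hq' (Fin.last a)
        rw [Fin.snoc_last] at this
        exact this
      obtain ⟨q, hqmin, hqle⟩ := Ideal.exists_minimalPrimes_le hIq'
      have hqp : q.IsPrime := hqmin.1.1
      by_cases hqm : q = orig ρ Ω
      · have : q' = orig ρ Ω := le_antisymm hq'le (hqm ▸ hqle)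
        rw [this]
        refine le_trans ?_ hh
        exact_mod_cast ha
      · have hnot := hd' q hqmin (hqle.trans hq'le) hqm
        have hlt : q < q' := lt_of_le_of_ne hqle (fun h => hnot (h ▸ hdq'))
        have h1 : (a : ℕ∞) ≤ q.height := by
          apply hc q hqp (hqle.trans hq'le)
          intro i
          apply hqmin.1.2
          rw [hI]
          exact Ideal.subset_span ⟨i, rfl⟩
        have h2 : q.height < q'.height := Ideal.height_strict_mono_of_isPrime hlt
        have h3 : (a : ℕ∞) < q'.height := lt_of_le_of_lt h1 h2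
        have h4 := Order.add_one_le_of_lt h3
        push_cast
        exact h4
  obtain ⟨c, hc⟩ := key (Fintype.card ρ) le_rfl
  let e := Fintype.equivFin ρ
  refine ⟨fun r => c (e r), fun r => hLorig _, ?_⟩
  intro p hp hple hpF
  by_contra hne
  have h1 : (Fintype.card ρ : ℕ∞) ≤ p.height := by
    apply hc p hp hple
    intro i
    have := hpF (e.symm i)
    simp only [Equiv.apply_symm_apply] at this
    exact this
  have h2 : p.height < (orig ρ Ω).height :=
    Ideal.height_strict_mono_of_isPrime (lt_of_le_of_ne hple hne)
  have h3 := orig_height_le ρ Ω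
  exact absurd (lt_of_le_of_lt h1 (lt_of_lt_of_le h2 h3)) (lt_irrefl _)

end Pool.Agent.W362.VF
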